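import Pool.Agent.U481.GL.Stm
import Pool.Agent.U111.HW.Stop

set_option autoImplicit false

open MeasureTheory Filter Topology Set
open scoped ENNReal NNReal Real

namespace Pool.Agent.U682.GL

open Pool.Agent.U481.HW Pool.Agent.U481.GL Pool.Agent.U111.HW.Stop

theorem der_kz (u y : ℝ) (hy : 0 < y) :
    HasDerivAt (fun u => kz u y) (-(2 * y * (y ^ 2 - 3 * u ^ 2)) / (π * (u ^ 2 + y ^ 2) ^ 3)) u := by
  have hS : (0 : ℝ) < u ^ 2 + y ^ 2 := by positivity
  have hpi := Real.pi_pos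
  have h1 : HasDerivAt (fun u : ℝ => -(2 * u * y)) (-(2 * y)) u := by
    refine (((hasDerivAt_id u).const_mul (-(2 * y))).congr_deriv (by ring)).congr_of_eventuallyEq
      (Eventually.of_forall fun v => ?_)
    simp only [id]
    ring
  have h2 : HasDerivAt (fun u : ℝ => π * (u ^ 2 + y ^ 2) ^ 2)
      (π * (2 * (u ^ 2 + y ^ 2) * (2 * u))) u := by
    have h3 : HasDerivAt (fun u : ℝ => u ^ 2 + y ^ 2) (2 * u) u := by
      have := (hasDerivAt_pow 2 u).add_const (y ^ 2)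
      simpa using this
    have := (h3.pow 2).const_mul π
    simpa using this
  have h4 := h1.div h2 (by positivity)
  unfold kz
  refine h4.congr_deriv ?_
  field_simp
  ring

theorem der_ky (u y : ℝ) (hy : 0 < y) :
    HasDerivAt (fun u => ky u y) (2 * u * (3 * y ^ 2 - u ^ 2) / (π * (u ^ 2 + y ^ 2) ^ 3)) u := by
  have hS : (0 : ℝ) < u ^ 2 + y ^ 2 := by positivity
  have hpi := Real.pi_pos
  have h1 : HasDerivAt (fun u : ℝ => u ^ 2 - y ^ 2) (2 * u) u := by
    have := (hasDerivAt_pow 2 u).sub_const (y ^ 2)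
    simpa using this
  have h2 : HasDerivAt (fun u : ℝ => π * (u ^ 2 + y ^ 2) ^ 2)
      (π * (2 * (u ^ 2 + y ^ 2) * (2 * u))) u := by
    have h3 : HasDerivAt (fun u : ℝ => u ^ 2 + y ^ 2) (2 * u) u := by
      have := (hasDerivAt_pow 2 u).add_const (y ^ 2)
      simpa using this
    have := (h3.pow 2).const_mul π
    simpa using this
  have h4 := h1.div h2 (by positivity)
  unfold ky
  refine h4.congr_deriv ?_
  field_simp
  ring

theorem aux_bd (u y H : ℝ) (hy : 0 < y) (hH : 0 < H) (h : H ≤ 3 * (|u| + y)) :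
    6 * (|u| + y) / (π * (u ^ 2 + y ^ 2) ^ 2) ≤ 216 / H ^ 3 := by
  have hpi := Real.pi_gt_three
  have hN : 0 < |u| + y := by positivity
  set N := |u| + y with hNd
  have hS : N ^ 2 / 2 ≤ u ^ 2 + y ^ 2 := by
    have : u ^ 2 = |u| ^ 2 := (sq_abs u).symm
    rw [this]
    nlinarith [sq_nonneg (|u| - y)]
  have hS2 : (N ^ 2 / 2) ^ 2 ≤ (u ^ 2 + y ^ 2) ^ 2 := by gcongr
  have h1 : 3 * (N ^ 2 / 2) ^ 2 ≤ π * (u ^ 2 + y ^ 2) ^ 2 := by gcongr
  have h2 : H ^ 3 ≤ (3 * N) ^ 3 := by gcongr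
  rw [div_le_div_iff₀ (by positivity) (by positivity)]
  calc 6 * N * H ^ 3 ≤ 6 * N * (3 * N) ^ 3 := by gcongr
    _ = 216 * (3 * (N ^ 2 / 2) ^ 2) := by ring
    _ ≤ 216 * (π * (u ^ 2 + y ^ 2) ^ 2) := by gcongr

theorem bd_kz (u y H : ℝ) (hy : 0 < y) (hH : 0 < H) (h : H ≤ 3 * (|u| + y)) :
    ‖-(2 * y * (y ^ 2 - 3 * u ^ 2)) / (π * (u ^ 2 + y ^ 2) ^ 3)‖ ≤ 216 / H ^ 3 := by
  refine le_trans ?_ (aux_bd u y H hy hH h)
  have hpi := Real.pi_pos
  have hS : 0 < u ^ 2 + y ^ 2 := by positivity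
  rw [Real.norm_eq_abs, abs_div, abs_of_pos (a := π * (u ^ 2 + y ^ 2) ^ 3) (by positivity),
    abs_neg, abs_mul, abs_of_pos (a := 2 * y) (by positivity),
    div_le_div_iff₀ (by positivity) (by positivity)]
  have h1 : |y ^ 2 - 3 * u ^ 2| ≤ 3 * (u ^ 2 + y ^ 2) := by
    rw [abs_le]; constructor <;> nlinarith [sq_nonneg u, sq_nonneg y]
  have h2 : 0 ≤ |u| := abs_nonneg u
  calc 2 * y * |y ^ 2 - 3 * u ^ 2| * (π * (u ^ 2 + y ^ 2) ^ 2)
      ≤ 2 * (|u| + y) * (3 * (u ^ 2 + y ^ 2)) * (π * (u ^ 2 + y ^ 2) ^ 2) := by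
        gcongr
        linarith
    _ = 6 * (|u| + y) * (π * (u ^ 2 + y ^ 2) ^ 3) := by ring

theorem bd_ky (u y H : ℝ) (hy : 0 < y) (hH : 0 < H) (h : H ≤ 3 * (|u| + y)) :
    ‖2 * u * (3 * y ^ 2 - u ^ 2) / (π * (u ^ 2 + y ^ 2) ^ 3)‖ ≤ 216 / H ^ 3 := by
  refine le_trans ?_ (aux_bd u y H hy hH h)
  have hpi := Real.pi_pos
  have hS : 0 < u ^ 2 + y ^ 2 := by positivity
  rw [Real.norm_eq_abs, abs_div, abs_of_pos (a := π * (u ^ 2 + y ^ 2) ^ 3) (by positivity),
    abs_mul, abs_mul, abs_of_pos (a := (2 : ℝ)) (by positivity),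
    div_le_div_iff₀ (by positivity) (by positivity)]
  have h1 : |3 * y ^ 2 - u ^ 2| ≤ 3 * (u ^ 2 + y ^ 2) := by
    rw [abs_le]; constructor <;> nlinarith [sq_nonneg u, sq_nonneg y]
  have h2 : 0 ≤ |u| := abs_nonneg u
  calc 2 * |u| * |3 * y ^ 2 - u ^ 2| * (π * (u ^ 2 + y ^ 2) ^ 2)
      ≤ 2 * (|u| + y) * (3 * (u ^ 2 + y ^ 2)) * (π * (u ^ 2 + y ^ 2) ^ 2) := by
        gcongr
        linarith
    _ = 6 * (|u| + y) * (π * (u ^ 2 + y ^ 2) ^ 3) := by ring

/-- a general mean value estimate -/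
theorem lip_gen (k k' : ℝ → ℝ) (M c l z : ℝ)
    (hd : ∀ u, HasDerivAt k (k' u) u)
    (hb : ∀ u, |u - (z - c)| ≤ l / 2 → ‖k' u‖ ≤ M) (s : ℝ) (hs : |s - c| ≤ l / 2) :
    |k (z - s) - k (z - c)| ≤ M * |s - c| := by
  have hconv : Convex ℝ (Metric.closedBall (z - c) (l / 2)) := convex_closedBall _ _
  have h := hconv.norm_image_sub_le_of_norm_hasDerivWithin_le (f := k) (f' := k') (C := M)
    (fun u _ => (hd u).hasDerivWithinAt)
    (fun u hu => hb u (by rwa [Metric.mem_closedBall, Real.dist_eq] at hu))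
    (x := z - c) (y := z - s)
    (by rw [Metric.mem_closedBall, Real.dist_eq, sub_self, abs_zero]; linarith [abs_nonneg (s - c)])
    (by rw [Metric.mem_closedBall, Real.dist_eq]
        have : z - s - (z - c) = -(s - c) := by ring
        rw [this, abs_neg]; exact hs)
  rw [Real.norm_eq_abs, Real.norm_eq_abs] at h
  have : z - s - (z - c) = -(s - c) := by ring
  rw [this, abs_neg] at h
  exact h

/-- integral estimate with a kernel -/
theorem int_gen (k : ℝ → ℝ) (M c l z : ℝ) (hM : 0 ≤ M) (b : ℝ → ℂ) (hb : Integrable b)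
    (h0 : ∫ x, b x = 0) (hsup : ∀ s, b s ≠ 0 → |s - c| ≤ l / 2)
    (hk : ∀ s, |s - c| ≤ l / 2 → |k (z - s) - k (z - c)| ≤ M * |s - c|) :
    ‖∫ t, (k (z - t) : ℂ) * b t‖ ≤ M * (l / 2) * ∫ x, ‖b x‖ := by
  by_cases hl : 0 ≤ l
  swap
  · have hb0 : b = fun _ => 0 := by
      funext s
      by_contra hcon
      have := hsup s hcon
      have := abs_nonneg (s - c)
      linarith
    subst hb0
    simp
  have hnn : 0 ≤ M * (l / 2) * ∫ x, ‖b x‖ := by
    have : 0 ≤ ∫ x, ‖b x‖ := integral_nonneg (fun x => norm_nonneg _)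
    positivity
  by_cases hI : Integrable (fun t => (k (z - t) : ℂ) * b t)
  swap
  · rw [integral_undef hI, norm_zero]; exact hnn
  have h1 : (∫ t, (k (z - t) : ℂ) * b t) =
      ∫ t, ((k (z - t) : ℂ) - (k (z - c) : ℂ)) * b t := by
    have h2 : (∫ t, (k (z - c) : ℂ) * b t) = 0 := by rw [integral_const_mul, h0, mul_zero]
    calc (∫ t, (k (z - t) : ℂ) * b t) = (∫ t, (k (z - t) : ℂ) * b t) -
          ∫ t, (k (z - c) : ℂ) * b t := by rw [h2, sub_zero]
      _ = ∫ t, ((k (z - t) : ℂ) * b t - (k (z - c) : ℂ) * b t) :=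
          (integral_sub hI (hb.const_mul _)).symm
      _ = _ := by
          congr 1; funext t; ring
  rw [h1, ← integral_const_mul]
  refine norm_integral_le_of_norm_le (hb.norm.const_mul _) (Eventually.of_forall fun s => ?_)
  by_cases hbs : b s = 0
  · simp [hbs]
  have hs := hsup s hbs
  rw [norm_mul, ← Complex.ofReal_sub, Complex.norm_real, Real.norm_eq_abs]
  have h3 := hk s hs
  have h4 : M * |s - c| ≤ M * (l / 2) := by gcongr
  gcongr
  linarith

/-- the two kernels -/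
theorem Gz_bd (b : ℝ → ℂ) (hb : Integrable b) (h0 : ∫ x, b x = 0) (c l : ℝ)
    (hsup : ∀ s, b s ≠ 0 → |s - c| ≤ l / 2) (x z y : ℝ) (hy : |z - x| < y) (hx : l ≤ |x - c|)
    (hl : 0 < l) :
    ‖Gz b (z, y)‖ ≤ 216 / (|x - c| + y) ^ 3 * (l / 2) * ∫ x, ‖b x‖ := by
  have hy0 : 0 < y := lt_of_le_of_lt (abs_nonneg _) hy
  have hH : 0 < |x - c| + y := by positivity
  unfold Gz
  refine int_gen (fun u => kz u y) _ c l z (by positivity) b hb h0 hsup (fun s hs => ?_)
  refine lip_gen (fun u => kz u y) _ _ c l z (fun u => der_kz u y hy0) (fun u hu => ?_) s hs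
  refine bd_kz u y _ hy0 hH ?_
  have h1 : |x - c| ≤ |x - z| + |z - c| := abs_sub_le x z c
  have h2 : |z - c| ≤ |u| + |u - (z - c)| := by
    have := abs_sub_le (z - c) u 0
    rw [sub_zero, sub_zero, abs_sub_comm (z - c) u] at this
    linarith
  rw [abs_sub_comm x z] at h1
  linarith [abs_nonneg u]

theorem Gy_bd (b : ℝ → ℂ) (hb : Integrable b) (h0 : ∫ x, b x = 0) (c l : ℝ)
    (hsup : ∀ s, b s ≠ 0 → |s - c| ≤ l / 2) (x z y : ℝ) (hy : |z - x| < y) (hx : l ≤ |x - c|)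
    (hl : 0 < l) :
    ‖Gy b (z, y)‖ ≤ 216 / (|x - c| + y) ^ 3 * (l / 2) * ∫ x, ‖b x‖ := by
  have hy0 : 0 < y := lt_of_le_of_lt (abs_nonneg _) hy
  have hH : 0 < |x - c| + y := by positivity
  unfold Gy
  refine int_gen (fun u => ky u y) _ c l z (by positivity) b hb h0 hsup (fun s hs => ?_)
  refine lip_gen (fun u => ky u y) _ _ c l z (fun u => der_ky u y hy0) (fun u hu => ?_) s hs
  refine bd_ky u y _ hy0 hH ?_
  have h1 : |x - c| ≤ |x - z| + |z - c| := abs_sub_le x z c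
  have h2 : |z - c| ≤ |u| + |u - (z - c)| := by
    have := abs_sub_le (z - c) u 0
    rw [sub_zero, sub_zero, abs_sub_comm (z - c) u] at this
    linarith
  rw [abs_sub_comm x z] at h1
  linarith [abs_nonneg u]

/-- `∫_{y>0} (D+y)^{-5} dy` -/
theorem int_five (D : ℝ) (hD : 0 < D) :
    (∫⁻ y in Ioi (0 : ℝ), ENNReal.ofReal (1 / (D + y) ^ 5)) = ENNReal.ofReal (1 / (4 * D ^ 4)) := by
  have hd : ∀ y ∈ Ici (0 : ℝ), HasDerivAt (fun y : ℝ => -(1 / (4 * (D + y) ^ 4)))
      (1 / (D + y) ^ 5) y := by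
    intro y hy
    have hDy : 0 < D + y := by have : (0 : ℝ) ≤ y := hy; linarith
    have h1 : HasDerivAt (fun y : ℝ => 4 * (D + y) ^ 4) (4 * (4 * (D + y) ^ 3)) y := by
      have h2 : HasDerivAt (fun y : ℝ => D + y) 1 y := by
        simpa using (hasDerivAt_id y).const_add D
      have := (h2.pow 4).const_mul 4
      simpa using this
    have h3 := ((hasDerivAt_const y (1 : ℝ)).div h1 (by positivity)).neg
    refine h3.congr_deriv ?_
    field_simp
    ring
  have hpos : ∀ y ∈ Ioi (0 : ℝ), (0 : ℝ) ≤ 1 / (D + y) ^ 5 := by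
    intro y hy
    have : (0 : ℝ) < y := hy
    positivity
  have hlim : Tendsto (fun y : ℝ => -(1 / (4 * (D + y) ^ 4))) atTop (𝓝 0) := by
    have h1 : Tendsto (fun y : ℝ => D + y) atTop atTop := tendsto_atTop_add_const_left _ _ tendsto_id
    have h2 : Tendsto (fun y : ℝ => 4 * (D + y) ^ 4) atTop atTop :=
      ((tendsto_pow_atTop (by norm_num)).comp h1).const_mul_atTop (by norm_num)
    have h3 : Tendsto (fun y : ℝ => -(4 * (D + y) ^ 4)⁻¹) atTop (𝓝 (-0)) :=
      (tendsto_inv_atTop_zero.comp h2).neg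
    rw [neg_zero] at h3
    refine h3.congr (fun y => ?_)
    rw [one_div]
  have hint := integrableOn_Ioi_deriv_of_nonneg' hd hpos hlim
  have hval := integral_Ioi_of_hasDerivAt_of_nonneg' hd hpos hlim
  rw [← ofReal_integral_eq_lintegral_ofReal hint
    ((ae_restrict_iff' measurableSet_Ioi).2 (Eventually.of_forall hpos)), hval]
  congr 1
  simp

/-- integral over the cone -/
theorem int_cone (h : ℝ → ℝ≥0∞) (hh : Measurable h) (x : ℝ) :
    (∫⁻ q in cone 1 x, h q.2) = ∫⁻ y in Ioi (0 : ℝ), h y * ENNReal.ofReal (2 * y) := by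
  have hm : MeasurableSet (cone 1 x) := by
    unfold cone
    exact measurableSet_lt (by fun_prop) (by fun_prop)
  rw [← lintegral_indicator hm, Measure.volume_eq_prod, lintegral_prod_symm']
  swap
  · exact (hh.comp measurable_snd).indicator hm
  rw [← lintegral_indicator measurableSet_Ioi]
  refine lintegral_congr fun y => ?_
  have h1 : ∀ z : ℝ, (cone 1 x).indicator (fun q : ℝ × ℝ => h q.2) (z, y) =
      (Ioo (x - y) (x + y)).indicator (fun _ => h y) z := by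
    intro z
    have hiff : (z, y) ∈ cone 1 x ↔ z ∈ Ioo (x - y) (x + y) := by
      simp only [cone, Set.mem_ofPred_eq, mem_Ioo, one_mul, abs_lt]
      constructor <;> rintro ⟨h1, h2⟩ <;> constructor <;> linarith
    by_cases hz : z ∈ Ioo (x - y) (x + y)
    · rw [indicator_of_mem hz, indicator_of_mem (hiff.2 hz)]
    · rw [indicator_of_notMem hz, indicator_of_notMem (fun h => hz (hiff.1 h))]
  simp_rw [h1]
  rw [lintegral_indicator measurableSet_Ioo, lintegral_const, Measure.restrict_apply_univ,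
    Real.volume_Ioo]
  have h2 : x + y - (x - y) = 2 * y := by ring
  rw [h2]
  by_cases hy : y ∈ Ioi (0 : ℝ)
  · rw [indicator_of_mem hy]
  · rw [indicator_of_notMem hy]
    have : 2 * y ≤ 0 := by
      have : y ≤ 0 := not_lt.1 hy
      linarith
    rw [ENNReal.ofReal_of_nonpos this, mul_zero]

/-- Part B: pointwise bound of the area function of an atom -/
theorem SF_atom (b : ℝ → ℂ) (hb : Integrable b) (h0 : ∫ x, b x = 0) (c l : ℝ) (hl : 0 < l)
    (hsup : ∀ s, b s ≠ 0 → |s - c| ≤ l / 2) (x : ℝ) (hx : l ≤ |x - c|) :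
    SF b x ≤ ENNReal.ofReal (108 * l / (x - c) ^ 2) * ∫⁻ y, ‖b y‖ₑ := by
  set D : ℝ := |x - c| with hD
  have hD0 : 0 < D := lt_of_lt_of_le hl hx
  set B : ℝ := ∫ x, ‖b x‖ with hB
  have hB0 : 0 ≤ B := integral_nonneg (fun x => norm_nonneg _)
  have hG : ∀ q ∈ cone 1 x, G2 b q ≤ ENNReal.ofReal (2 * (108 * l * B) ^ 2 * (1 / (D + q.2) ^ 6)) := by
    rintro ⟨z, y⟩ hq
    have hzy : |z - x| < y := by simpa [cone] using hq
    have hy0 : 0 < y := lt_of_le_of_lt (abs_nonneg _) hzy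
    have h1 := Gz_bd b hb h0 c l hsup x z y hzy hx hl
    have h2 := Gy_bd b hb h0 c l hsup x z y hzy hx hl
    have hDy : 0 < D + y := by positivity
    have e1 : ∀ w : ℂ, ‖w‖ ≤ 216 / (D + y) ^ 3 * (l / 2) * B →
        ‖w‖ₑ ^ 2 ≤ ENNReal.ofReal ((108 * l * B) ^ 2 * (1 / (D + y) ^ 6)) := by
      intro w hw
      rw [← ofReal_norm, ← ENNReal.ofReal_pow (norm_nonneg _)]
      refine ENNReal.ofReal_le_ofReal ?_
      calc ‖w‖ ^ 2 ≤ (216 / (D + y) ^ 3 * (l / 2) * B) ^ 2 := by gcongr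
        _ = (108 * l * B) ^ 2 * (1 / (D + y) ^ 6) := by
            field_simp
            ring
    unfold G2
    calc ‖Gz b (z, y)‖ₑ ^ 2 + ‖Gy b (z, y)‖ₑ ^ 2
        ≤ ENNReal.ofReal ((108 * l * B) ^ 2 * (1 / (D + y) ^ 6)) +
          ENNReal.ofReal ((108 * l * B) ^ 2 * (1 / (D + y) ^ 6)) := add_le_add (e1 _ h1) (e1 _ h2)
      _ = ENNReal.ofReal (2 * (108 * l * B) ^ 2 * (1 / (D + y) ^ 6)) := by
          rw [← ENNReal.ofReal_add (by positivity) (by positivity)]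
          congr 1; ring
  have hint : (∫⁻ q in cone 1 x, G2 b q) ≤ ENNReal.ofReal ((108 * l * B / D ^ 2) ^ 2) := by
    have hm : MeasurableSet (cone 1 x) := by
      unfold cone
      exact measurableSet_lt (by fun_prop) (by fun_prop)
    calc (∫⁻ q in cone 1 x, G2 b q)
        ≤ ∫⁻ q in cone 1 x, ENNReal.ofReal (2 * (108 * l * B) ^ 2 * (1 / (D + q.2) ^ 6)) :=
          setLIntegral_mono' hm hG
      _ = ∫⁻ y in Ioi (0 : ℝ), ENNReal.ofReal (2 * (108 * l * B) ^ 2 * (1 / (D + y) ^ 6)) *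
            ENNReal.ofReal (2 * y) :=
          int_cone (fun y => ENNReal.ofReal (2 * (108 * l * B) ^ 2 * (1 / (D + y) ^ 6)))
            (by fun_prop) x
      _ ≤ ∫⁻ y in Ioi (0 : ℝ), ENNReal.ofReal (4 * (108 * l * B) ^ 2) *
            ENNReal.ofReal (1 / (D + y) ^ 5) := by
          refine setLIntegral_mono' measurableSet_Ioi fun y hy => ?_
          have hy0 : (0 : ℝ) < y := hy
          rw [← ENNReal.ofReal_mul (by positivity), ← ENNReal.ofReal_mul (by positivity)]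
          refine ENNReal.ofReal_le_ofReal ?_
          have h1 : y * (1 / (D + y) ^ 6) ≤ 1 / (D + y) ^ 5 := by
            rw [mul_one_div, div_le_div_iff₀ (by positivity) (by positivity)]
            have : y ≤ D + y := by linarith
            calc y * (D + y) ^ 5 ≤ (D + y) * (D + y) ^ 5 := by gcongr
              _ = 1 * (D + y) ^ 6 := by ring
          calc 2 * (108 * l * B) ^ 2 * (1 / (D + y) ^ 6) * (2 * y)
              = 4 * (108 * l * B) ^ 2 * (y * (1 / (D + y) ^ 6)) := by ring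
            _ ≤ 4 * (108 * l * B) ^ 2 * (1 / (D + y) ^ 5) := by gcongr
      _ = ENNReal.ofReal (4 * (108 * l * B) ^ 2) * ENNReal.ofReal (1 / (4 * D ^ 4)) := by
          rw [lintegral_const_mul _ (by fun_prop), int_five D hD0]
      _ = ENNReal.ofReal ((108 * l * B / D ^ 2) ^ 2) := by
          rw [← ENNReal.ofReal_mul (by positivity)]
          congr 1
          field_simp
          
  have hDsq : (x - c) ^ 2 = D ^ 2 := (sq_abs _).symm
  have hB1 : (∫⁻ y, ‖b y‖ₑ) = ENNReal.ofReal B := by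
    rw [hB, integral_norm_eq_lintegral_enorm hb.1, ENNReal.ofReal_toReal]
    exact hb.2.ne
  unfold SF SG
  calc (∫⁻ q in cone 1 x, G2 b q) ^ (1 / 2 : ℝ)
      ≤ (ENNReal.ofReal ((108 * l * B / D ^ 2) ^ 2)) ^ (1 / 2 : ℝ) := by gcongr
    _ = ENNReal.ofReal (108 * l * B / D ^ 2) := by
        rw [ENNReal.ofReal_pow (by positivity), ← ENNReal.rpow_natCast, ← ENNReal.rpow_mul]
        norm_num
    _ = ENNReal.ofReal (108 * l / (x - c) ^ 2) * ∫⁻ y, ‖b y‖ₑ := by
        rw [hB1, hDsq, ← ENNReal.ofReal_mul (by positivity)]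
        congr 1; ring

end Pool.Agent.U682.GL
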