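import Pool.Agent.U682.GL.CZ
import Pool.Agent.U682.GL.KB

set_option autoImplicit false

open MeasureTheory Filter Topology Set
open scoped ENNReal NNReal Real

namespace Pool.Agent.U682.GL

open Pool.Agent.U481.HW Pool.Agent.U481.GL Pool.Agent.U111.HW.Stop

theorem int_two (l : ℝ) (hl : 0 < l) :
    (∫⁻ y in Ici l, ENNReal.ofReal (l / y ^ 2)) ≤ 1 := by
  have hd : ∀ y ∈ Ici l, HasDerivAt (fun y : ℝ => -(l / y)) (l / y ^ 2) y := by
    intro y hy
    have hy0 : 0 < y := lt_of_lt_of_le hl hy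
    have h3 := ((hasDerivAt_const y l).div (hasDerivAt_id y) hy0.ne').neg
    refine h3.congr_deriv ?_
    simp only [id]
    field_simp
    ring
  have hpos : ∀ y ∈ Ioi l, (0 : ℝ) ≤ l / y ^ 2 := by
    intro y hy
    positivity
  have hlim : Tendsto (fun y : ℝ => -(l / y)) atTop (𝓝 0) := by
    have h3 : Tendsto (fun y : ℝ => -(l * y⁻¹)) atTop (𝓝 (-(l * 0))) :=
      (tendsto_inv_atTop_zero.const_mul l).neg
    rw [mul_zero, neg_zero] at h3
    exact h3
  have hint := integrableOn_Ioi_deriv_of_nonneg' hd hpos hlim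
  have hval := integral_Ioi_of_hasDerivAt_of_nonneg' hd hpos hlim
  rw [setLIntegral_congr Ioi_ae_eq_Ici.symm, ← ofReal_integral_eq_lintegral_ofReal hint
    ((ae_restrict_iff' measurableSet_Ioi).2 (Eventually.of_forall hpos)), hval]
  rw [div_self hl.ne']
  simp

theorem out_two (c l : ℝ) (hl : 0 < l) :
    (∫⁻ x in {x : ℝ | l ≤ |x - c|}, ENNReal.ofReal (l / (x - c) ^ 2)) ≤ 2 := by
  have hm : MeasurableSet {x : ℝ | l ≤ |x - c|} := measurableSet_le (by fun_prop) (by fun_prop)
  set φ : ℝ → ℝ≥0∞ := (Ici l).indicator (fun w => ENNReal.ofReal (l / w ^ 2)) with hφ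
  have hφm : Measurable φ := Measurable.indicator (by fun_prop) measurableSet_Ici
  have hφi : (∫⁻ w, φ w) ≤ 1 := by
    rw [hφ, lintegral_indicator measurableSet_Ici]
    exact int_two l hl
  rw [← lintegral_indicator hm]
  calc (∫⁻ x, ({x : ℝ | l ≤ |x - c|}).indicator (fun x => ENNReal.ofReal (l / (x - c) ^ 2)) x)
      ≤ ∫⁻ x, (φ (x - c) + φ (-(x - c))) := by
        refine lintegral_mono fun x => ?_
        by_cases hx : l ≤ |x - c|
        · rw [indicator_of_mem (show x ∈ {x : ℝ | l ≤ |x - c|} from hx)]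
          rcases le_abs.1 hx with h | h
          · refine le_trans (le_of_eq ?_) (le_self_add)
            simp only [hφ]
            rw [indicator_of_mem (show x - c ∈ Ici l from h)]
          · refine le_trans (le_of_eq ?_) (le_add_self)
            simp only [hφ]
            rw [indicator_of_mem (show -(x - c) ∈ Ici l from h), neg_sq]
        · rw [indicator_of_notMem (show x ∉ {x : ℝ | l ≤ |x - c|} from hx)]
          exact zero_le
    _ = (∫⁻ x, φ (x - c)) + ∫⁻ x, φ (-(x - c)) :=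
        lintegral_add_left (hφm.comp (by fun_prop)) _
    _ = (∫⁻ x, φ x) + ∫⁻ x, φ (-x) := by
        rw [lintegral_sub_right_eq_self (fun x => φ x) c,
          lintegral_sub_right_eq_self (fun x => φ (-x)) c]
    _ = (∫⁻ x, φ x) + ∫⁻ x, φ x := by
        congr 1
        exact lintegral_neg_eq_self φ
    _ ≤ 1 + 1 := add_le_add hφi hφi
    _ = 2 := one_add_one_eq_two

theorem SF_out (b : ℝ → ℂ) (hb : Integrable b) (h0 : ∫ x, b x = 0) (c l : ℝ) (hl : 0 < l)
    (hsup : ∀ s, b s ≠ 0 → |s - c| ≤ l / 2) :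
    (∫⁻ x in {x : ℝ | l ≤ |x - c|}, SF b x) ≤ 216 * ∫⁻ y, ‖b y‖ₑ := by
  have hm : MeasurableSet {x : ℝ | l ≤ |x - c|} := measurableSet_le (by fun_prop) (by fun_prop)
  calc (∫⁻ x in {x : ℝ | l ≤ |x - c|}, SF b x)
      ≤ ∫⁻ x in {x : ℝ | l ≤ |x - c|},
          ENNReal.ofReal (l / (x - c) ^ 2) * (108 * ∫⁻ y, ‖b y‖ₑ) := by
        refine setLIntegral_mono' hm fun x hx => ?_
        refine (SF_atom b hb h0 c l hl hsup x hx).trans (le_of_eq ?_)
        rw [← mul_assoc]
        congr 1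
        have : (108 : ℝ≥0∞) = ENNReal.ofReal 108 := by simp
        rw [this, ← ENNReal.ofReal_mul (by positivity)]
        congr 1; ring
    _ = (∫⁻ x in {x : ℝ | l ≤ |x - c|}, ENNReal.ofReal (l / (x - c) ^ 2)) *
          (108 * ∫⁻ y, ‖b y‖ₑ) := lintegral_mul_const _ (by fun_prop)
    _ ≤ 2 * (108 * ∫⁻ y, ‖b y‖ₑ) := by gcongr; exact out_two c l hl
    _ = 216 * ∫⁻ y, ‖b y‖ₑ := by rw [← mul_assoc]; norm_num

/-- the atoms -/
theorem atom (f : ℝ → ℂ) (hf : Integrable f) (r : ℤ × ℤ) :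
    ∃ m : ℂ, ‖m‖ₑ * volume (DD r) ≤ (∫⁻ y in DD r, ‖f y‖ₑ) ∧
      Integrable ((DD r).indicator (fun y => f y - m)) ∧
      (∫ x, (DD r).indicator (fun y => f y - m) x) = 0 ∧
      (∫⁻ x, ‖(DD r).indicator (fun y => f y - m) x‖ₑ) ≤ 2 * ∫⁻ y in DD r, ‖f y‖ₑ := by
  have hl : (0 : ℝ) < 2 ^ r.1 := pow_pos' _
  set m : ℂ := (((2 : ℝ) ^ r.1 : ℝ) : ℂ)⁻¹ * ∫ y in DD r, f y with hm
  have hvol : volume (DD r) = ENNReal.ofReal (2 ^ r.1) := vol_DD r
  have hfin : volume (DD r) ≠ ⊤ := by rw [hvol]; exact ENNReal.ofReal_ne_top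
  have h1 : ‖m‖ₑ * volume (DD r) ≤ ∫⁻ y in DD r, ‖f y‖ₑ := by
    have h2 : ‖m‖ₑ * volume (DD r) = ‖∫ y in DD r, f y‖ₑ := by
      rw [hvol, hm, enorm_mul]
      have h3 : ENNReal.ofReal ((2 : ℝ) ^ r.1) = ‖(((2 : ℝ) ^ r.1 : ℝ) : ℂ)‖ₑ := by
        rw [← ofReal_norm, Complex.norm_real, Real.norm_eq_abs, abs_of_pos hl]
      rw [h3, mul_comm, ← mul_assoc, ← enorm_mul, mul_inv_cancel₀, enorm_one, one_mul]
      exact_mod_cast hl.ne'
    rw [h2]
    exact enorm_integral_le_lintegral_enorm _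
  have hc : IntegrableOn (fun _ : ℝ => m) (DD r) := integrableOn_const hfin
  have hi : IntegrableOn (fun y => f y - m) (DD r) := hf.integrableOn.sub hc
  refine ⟨m, h1, (integrable_indicator_iff (meas_DD r)).2 hi, ?_, ?_⟩
  · rw [integral_indicator (meas_DD r), integral_sub hf.integrableOn hc, setIntegral_const]
    have h4 : volume.real (DD r) = 2 ^ r.1 := by
      rw [Measure.real, hvol, ENNReal.toReal_ofReal hl.le]
    rw [h4, hm, Complex.real_smul, ← mul_assoc, mul_inv_cancel₀, one_mul, sub_self]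
    exact_mod_cast hl.ne'
  · have h5 : ∀ x, ‖(DD r).indicator (fun y => f y - m) x‖ₑ =
        (DD r).indicator (fun y => ‖f y - m‖ₑ) x := by
      intro x
      by_cases hx : x ∈ DD r
      · rw [indicator_of_mem hx, indicator_of_mem hx]
      · rw [indicator_of_notMem hx, indicator_of_notMem hx, enorm_zero]
    simp_rw [h5]
    rw [lintegral_indicator (meas_DD r)]
    calc (∫⁻ y in DD r, ‖f y - m‖ₑ) ≤ ∫⁻ y in DD r, (‖f y‖ₑ + ‖m‖ₑ) :=
          lintegral_mono fun y => enorm_sub_le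
      _ = (∫⁻ y in DD r, ‖f y‖ₑ) + ‖m‖ₑ * volume (DD r) := by
          rw [lintegral_add_right _ measurable_const, lintegral_const, Measure.restrict_apply_univ]
      _ ≤ 2 * ∫⁻ y in DD r, ‖f y‖ₑ := by rw [two_mul]; gcongr

theorem sup_atom (h : ℝ → ℂ) (r : ℤ × ℤ) (s : ℝ) (hs : (DD r).indicator h s ≠ 0) :
    |s - ((r.2 : ℝ) + 1 / 2) * 2 ^ r.1| ≤ 2 ^ r.1 / 2 := by
  have h1 : s ∈ DD r := by
    by_contra hcon
    exact hs (indicator_of_notMem hcon _)
  obtain ⟨h2, h3⟩ := h1
  rw [abs_le]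
  constructor <;> linarith

theorem main : S_sub → S_l2 → S_wk := by
  rintro ⟨hmeas, hsub, hcsub⟩ ⟨C, hC, hl2⟩
  refine ⟨24 * C + 866, ?_, ?_⟩
  · exact ENNReal.add_lt_top.2 ⟨ENNReal.mul_lt_top (by norm_num) hC, by norm_num⟩
  intro f hf t
  by_cases ht0 : t = 0
  · rw [ht0, zero_mul]; exact zero_le
  by_cases htt : t = ⊤
  · have : {x | t < SF f x} = ∅ := by
      ext x
      simp [htt]
    rw [this, measure_empty, mul_zero]; exact zero_le
  classical
  obtain ⟨F, hdisj, hlow, hup, hae⟩ := cz f hf t ht0 htt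
  choose m hm1 hm2 hm3 hm4 using atom f hf
  set A : ℝ≥0∞ := ∫⁻ y, ‖f y‖ₑ with hA
  set e : ℕ ≃ ℤ × ℤ := (Denumerable.eqv (ℤ × ℤ)).symm with he
  set b : ℕ → ℝ → ℂ := fun j => if e j ∈ F then (DD (e j)).indicator (fun y => f y - m (e j))
    else fun _ => 0 with hb
  set I : ℕ → Set ℝ := fun j => if e j ∈ F then DD (e j) else ∅ with hI
  have hImeas : ∀ j, MeasurableSet (I j) := by
    intro j
    simp only [hI]
    split_ifs
    · exact meas_DD _
    · exact MeasurableSet.empty
  have hIdisj : Pairwise (Function.onFun Disjoint I) := by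
    intro i j hij
    simp only [Function.onFun, hI]
    split_ifs with h1 h2
    · exact hdisj h1 h2 (fun h => hij (e.injective h))
    · exact disjoint_empty _
    · exact empty_disjoint _
    · exact disjoint_empty _
  have hbI : ∀ j, Integrable (b j) := by
    intro j
    simp only [hb]
    split_ifs
    · exact hm2 _
    · exact integrable_zero _ _ _
  have hb0 : ∀ j, ∫ x, b j x = 0 := by
    intro j
    simp only [hb]
    split_ifs
    · exact hm3 _
    · exact integral_zero _ _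
  have hbn : ∀ j, (∫⁻ x, ‖b j x‖ₑ) ≤ 2 * ∫⁻ y in I j, ‖f y‖ₑ := by
    intro j
    simp only [hb, hI]
    split_ifs
    · exact hm4 _
    · simp
  have hsumI : (∑' j, ∫⁻ y in I j, ‖f y‖ₑ) ≤ A := by
    rw [← lintegral_iUnion hImeas hIdisj]
    exact setLIntegral_le_lintegral _ _
  have hsumb : (∑' j, ∫⁻ x, ‖b j x‖ₑ) ≤ 2 * A := by
    calc (∑' j, ∫⁻ x, ‖b j x‖ₑ) ≤ ∑' j, 2 * ∫⁻ y in I j, ‖f y‖ₑ := ENNReal.tsum_le_tsum hbn
      _ = 2 * ∑' j, ∫⁻ y in I j, ‖f y‖ₑ := ENNReal.tsum_mul_left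
      _ ≤ 2 * A := by gcongr
  have hAfin : A < ⊤ := hf.2
  have hsumb' : (∑' j, ∫⁻ x, ‖b j x‖ₑ) < ⊤ :=
    lt_of_le_of_lt hsumb (ENNReal.mul_lt_top (by norm_num) hAfin)
  -- pointwise: at most one nonzero term
  have hbz : ∀ j x, x ∉ I j → b j x = 0 := by
    intro j x hx
    simp only [hb]
    simp only [hI] at hx
    split_ifs at hx ⊢ with h
    · exact indicator_of_notMem hx _
    · rfl
  have hbx : ∀ j x, x ∈ I j → b j x = f x - m (e j) := by
    intro j x hx
    simp only [hb]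
    simp only [hI] at hx
    split_ifs at hx ⊢ with h
    · exact indicator_of_mem hx _
    · exact absurd hx (notMem_empty _)
  have hone : ∀ j x, x ∈ I j → ∀ i, i ≠ j → b i x = 0 := by
    intro j x hx i hij
    refine hbz i x (fun hxi => ?_)
    exact Set.disjoint_left.1 (hIdisj hij) hxi hx
  have hsumm : ∀ x, Summable (fun j => b j x) := by
    intro x
    by_cases hx : ∃ j, x ∈ I j
    · obtain ⟨j, hj⟩ := hx
      exact (hasSum_single j (fun i hi => hone j x hj i hi)).summable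
    · push Not at hx
      have : (fun j => b j x) = fun _ => 0 := by
        funext j; exact hbz j x (hx j)
      rw [this]
      exact summable_zero
  set B : ℝ → ℂ := fun y => ∑' j, b j y with hB
  have hBm : AEStronglyMeasurable B volume := by
    refine aestronglyMeasurable_of_tendsto_ae atTop
      (f := fun n x => ∑ i ∈ Finset.range n, b i x) (fun n => ?_)
      (Eventually.of_forall fun x => (hsumm x).hasSum.tendsto_sum_nat)
    exact (integrable_finsetSum _ (fun i _ => hbI i)).1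
  have hBn : ∀ x, ‖B x‖ₑ ≤ ∑' j, ‖b j x‖ₑ := by
    intro x
    by_cases hx : ∃ j, x ∈ I j
    · obtain ⟨j, hj⟩ := hx
      have : B x = b j x := tsum_eq_single j (fun i hi => hone j x hj i hi)
      rw [this]
      exact ENNReal.le_tsum (f := fun j => ‖b j x‖ₑ) j
    · push Not at hx
      have : B x = 0 := by
        simp only [hB]
        rw [show (fun j => b j x) = fun _ => 0 from by funext j; exact hbz j x (hx j)]
        exact tsum_zero
      rw [this, enorm_zero]
      exact zero_le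
  have hBi : (∫⁻ x, ‖B x‖ₑ) ≤ 2 * A := by
    calc (∫⁻ x, ‖B x‖ₑ) ≤ ∫⁻ x, ∑' j, ‖b j x‖ₑ := lintegral_mono hBn
      _ = ∑' j, ∫⁻ x, ‖b j x‖ₑ := lintegral_tsum (fun j => (hbI j).1.enorm)
      _ ≤ 2 * A := hsumb
  have hBI : Integrable B := ⟨hBm, lt_of_le_of_lt hBi (ENNReal.mul_lt_top (by norm_num) hAfin)⟩
  set g : ℝ → ℂ := fun y => f y - B y with hg
  have hgI : Integrable g := hf.sub hBI
  have hgn : (∫⁻ x, ‖g x‖ₑ) ≤ 3 * A := by
    calc (∫⁻ x, ‖g x‖ₑ) ≤ ∫⁻ x, (‖f x‖ₑ + ‖B x‖ₑ) := lintegral_mono fun x => enorm_sub_le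
      _ = A + ∫⁻ x, ‖B x‖ₑ := lintegral_add_left' hf.1.enorm _
      _ ≤ A + 2 * A := by gcongr
      _ = 3 * A := by ring
  have hg2 : ∀ᵐ x, ‖g x‖ₑ ≤ 2 * t := by
    filter_upwards [hae] with x hx
    by_cases hxI : ∃ j, x ∈ I j
    · obtain ⟨j, hj⟩ := hxI
      have hBx : B x = b j x := tsum_eq_single j (fun i hi => hone j x hj i hi)
      have hgx : g x = m (e j) := by
        simp only [hg]
        rw [hBx, hbx j x hj]; ring
      rw [hgx]
      have hjF : e j ∈ F := by
        by_contra hcon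
        simp only [hI, if_neg hcon] at hj
        exact hj
      have h1 : ‖m (e j)‖ₑ * volume (DD (e j)) ≤ 2 * t * volume (DD (e j)) :=
        (hm1 (e j)).trans (hup (e j) hjF)
      have hv0 : volume (DD (e j)) ≠ 0 := by
        rw [vol_DD]
        exact (ENNReal.ofReal_pos.2 (pow_pos' _)).ne'
      have hvt : volume (DD (e j)) ≠ ⊤ := by rw [vol_DD]; exact ENNReal.ofReal_ne_top
      exact (ENNReal.mul_le_mul_iff_left hv0 hvt).1 h1
    · push Not at hxI
      have hBx : B x = 0 := by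
        simp only [hB]
        rw [show (fun j => b j x) = fun _ => 0 from by funext j; exact hbz j x (hxI j)]
        exact tsum_zero
      have hgx : g x = f x := by
        simp only [hg]
        rw [hBx, sub_zero]
      rw [hgx]
      refine (hx (fun r hr hxr => ?_)).trans ?_
      · refine hxI (e.symm r) ?_
        simp only [hI, Equiv.apply_symm_apply, if_pos hr]
        exact hxr
      · rw [two_mul]; exact le_self_add
  have hg22 : (∫⁻ x, ‖g x‖ₑ ^ 2) ≤ 6 * t * A := by
    calc (∫⁻ x, ‖g x‖ₑ ^ 2) ≤ ∫⁻ x, 2 * t * ‖g x‖ₑ := by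
          refine lintegral_mono_ae ?_
          filter_upwards [hg2] with x hx
          rw [sq]
          gcongr
      _ = 2 * t * ∫⁻ x, ‖g x‖ₑ := lintegral_const_mul' _ _ (ENNReal.mul_ne_top (by norm_num) htt)
      _ ≤ 2 * t * (3 * A) := by gcongr
      _ = 6 * t * A := by ring
  have h6fin : 6 * t * A < ⊤ :=
    ENNReal.mul_lt_top (ENNReal.mul_lt_top (by norm_num) (lt_top_iff_ne_top.2 htt)) hAfin
  have hSg : (∫⁻ x, (SF g x) ^ 2) ≤ C * (6 * t * A) :=
    (hl2 g hgI (lt_of_le_of_lt hg22 h6fin)).trans (by gcongr)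
  have hSgm : Measurable (SF g) := hmeas g hgI
  -- good part
  have hgood : t * volume {x | t / 2 < SF g x} ≤ 24 * C * A := by
    have h1 : (t / 2) ^ 2 * volume {x | t / 2 < SF g x} ≤ C * (6 * t * A) := by
      refine le_trans ?_ ((mul_meas_ge_le_lintegral₀ (hSgm.pow_const 2).aemeasurable
        ((t / 2) ^ 2)).trans hSg)
      refine mul_le_mul_right (measure_mono ?_) _
      intro x hx
      have hx' : t / 2 < SF g x := hx
      show (t / 2) ^ 2 ≤ SF g x ^ 2
      exact pow_le_pow_left' hx'.le 2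
    have h2 : (t / 2) * 2 = t := ENNReal.div_mul_cancel (by norm_num) (by norm_num)
    have h3 : t * (t * volume {x | t / 2 < SF g x}) ≤ t * (24 * C * A) := by
      calc t * (t * volume {x | t / 2 < SF g x})
          = ((t / 2) * 2) * (((t / 2) * 2) * volume {x | t / 2 < SF g x}) := by rw [h2]
        _ = 4 * ((t / 2) ^ 2 * volume {x | t / 2 < SF g x}) := by ring
        _ ≤ 4 * (C * (6 * t * A)) := by gcongr
        _ = t * (24 * C * A) := by ring
    exact (ENNReal.mul_le_mul_iff_right ht0 htt).1 h3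
  -- bad part
  set cc : ℕ → ℝ := fun j => (((e j).2 : ℝ) + 1 / 2) * 2 ^ (e j).1 with hcc
  set ll : ℕ → ℝ := fun j => 2 ^ (e j).1 with hll
  have hll0 : ∀ j, 0 < ll j := fun j => pow_pos' _
  set J : ℕ → Set ℝ := fun j => if e j ∈ F then {x | |x - cc j| < ll j} else ∅ with hJ
  set E : Set ℝ := ⋃ j, J j with hE
  have hJmeas : ∀ j, MeasurableSet (J j) := by
    intro j
    simp only [hJ]
    split_ifs
    · exact measurableSet_lt (by fun_prop) (by fun_prop)
    · exact MeasurableSet.empty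
  have hEmeas : MeasurableSet E := MeasurableSet.iUnion hJmeas
  have hEvol : t * volume E ≤ 2 * A := by
    have h1 : ∀ j, t * volume (J j) ≤ 2 * ∫⁻ y in I j, ‖f y‖ₑ := by
      intro j
      by_cases hjF : e j ∈ F
      · have h2 : J j = Ioo (cc j - ll j) (cc j + ll j) := by
          simp only [hJ, if_pos hjF]
          ext x
          simp only [Set.mem_ofPred_eq, mem_Ioo, abs_lt]
          constructor <;> rintro ⟨h1, h2⟩ <;> constructor <;> linarith
        have h3 : volume (J j) = 2 * volume (DD (e j)) := by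
          rw [h2, Real.volume_Ioo, vol_DD]
          have : cc j + ll j - (cc j - ll j) = 2 * 2 ^ (e j).1 := by simp only [hll]; ring
          rw [this, ENNReal.ofReal_mul (by norm_num)]
          norm_num
        have h4 : I j = DD (e j) := by simp only [hI, if_pos hjF]
        rw [h3, h4]
        calc t * (2 * volume (DD (e j))) = 2 * (t * volume (DD (e j))) := by ring
          _ ≤ 2 * ∫⁻ y in DD (e j), ‖f y‖ₑ := by gcongr; exact hlow _ hjF
      · have h2 : J j = ∅ := by simp only [hJ, if_neg hjF]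
        rw [h2, measure_empty, mul_zero]
        exact zero_le
    calc t * volume E ≤ t * ∑' j, volume (J j) := by gcongr; exact measure_iUnion_le _
      _ = ∑' j, t * volume (J j) := ENNReal.tsum_mul_left.symm
      _ ≤ ∑' j, 2 * ∫⁻ y in I j, ‖f y‖ₑ := ENNReal.tsum_le_tsum h1
      _ = 2 * ∑' j, ∫⁻ y in I j, ‖f y‖ₑ := ENNReal.tsum_mul_left
      _ ≤ 2 * A := by gcongr
  set h : ℝ → ℝ≥0∞ := fun x => ∑' j, SF (b j) x with hh
  have hhm : Measurable h := Measurable.tsum fun j => hmeas _ (hbI j)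
  have hout : (∫⁻ x in Eᶜ, h x) ≤ 432 * A := by
    have h1 : ∀ j, (∫⁻ x in Eᶜ, SF (b j) x) ≤ 216 * ∫⁻ x, ‖b j x‖ₑ := by
      intro j
      by_cases hjF : e j ∈ F
      · have h2 : Eᶜ ⊆ {x : ℝ | ll j ≤ |x - cc j|} := by
          intro x hx
          have h3 : x ∉ J j := fun hxj => hx (mem_iUnion.2 ⟨j, hxj⟩)
          simp only [hJ, if_pos hjF] at h3
          exact not_lt.1 (show ¬ |x - cc j| < ll j from h3)
        refine (lintegral_mono_set h2).trans (SF_out (b j) (hbI j) (hb0 j) (cc j) (ll j) (hll0 j) ?_)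
        intro s hs
        have h4 : b j = (DD (e j)).indicator (fun y => f y - m (e j)) := by
          simp only [hb, if_pos hjF]
        rw [h4] at hs
        exact sup_atom _ _ _ hs
      · have h4 : b j = fun _ => 0 := by simp only [hb, if_neg hjF]
        have h5 : ∀ x, SF (b j) x = 0 := by
          intro x
          rw [h4]
          simp [SF, SG, G2, Gz, Gy]
        simp_rw [h5]
        simp
    calc (∫⁻ x in Eᶜ, h x) = ∑' j, ∫⁻ x in Eᶜ, SF (b j) x :=
          lintegral_tsum fun j => (hmeas _ (hbI j)).aemeasurable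
      _ ≤ ∑' j, 216 * ∫⁻ x, ‖b j x‖ₑ := ENNReal.tsum_le_tsum h1
      _ = 216 * ∑' j, ∫⁻ x, ‖b j x‖ₑ := ENNReal.tsum_mul_left
      _ ≤ 216 * (2 * A) := by gcongr
      _ = 432 * A := by ring
  have hbad : t * volume {x | t / 2 < h x} ≤ 866 * A := by
    have h1 : (t / 2) * volume ({x | t / 2 < h x} ∩ Eᶜ) ≤ 432 * A := by
      have h2 := (mul_meas_ge_le_lintegral₀ (μ := volume.restrict Eᶜ) hhm.aemeasurable
        (t / 2)).trans hout
      refine le_trans ?_ h2
      rw [Measure.restrict_apply (measurableSet_le measurable_const hhm)]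
      refine mul_le_mul_right (measure_mono (inter_subset_inter_left _ ?_)) _
      intro x hx
      have hx' : t / 2 < h x := hx
      exact hx'.le
    have h2 : (t / 2) * 2 = t := ENNReal.div_mul_cancel (by norm_num) (by norm_num)
    have h3 : volume {x | t / 2 < h x} ≤ volume E + volume ({x | t / 2 < h x} ∩ Eᶜ) := by
      refine le_trans (measure_mono ?_) (measure_union_le _ _)
      intro x hx
      by_cases hxE : x ∈ E
      · exact Or.inl hxE
      · exact Or.inr ⟨hx, hxE⟩
    calc t * volume {x | t / 2 < h x}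
        ≤ t * (volume E + volume ({x | t / 2 < h x} ∩ Eᶜ)) := by gcongr
      _ = t * volume E + ((t / 2) * 2) * volume ({x | t / 2 < h x} ∩ Eᶜ) := by rw [mul_add, h2]
      _ = t * volume E + 2 * ((t / 2) * volume ({x | t / 2 < h x} ∩ Eᶜ)) := by ring
      _ ≤ 2 * A + 2 * (432 * A) := by gcongr
      _ = 866 * A := by ring
  -- conclusion
  have hkey : ∀ x, SF f x ≤ SF g x + h x := by
    intro x
    have h1 : f = fun y => g y + B y := by
      funext y; simp only [hg]; ring
    calc SF f x = SF (fun y => g y + B y) x := by rw [← h1]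
      _ ≤ SF g x + SF B x := hsub g B hgI hBI x
      _ ≤ SF g x + h x := by gcongr; exact hcsub b hbI hsumb' x
  have hsubset : {x | t < SF f x} ⊆ {x | t / 2 < SF g x} ∪ {x | t / 2 < h x} := by
    intro x hx
    have hx' : t < SF f x := hx
    by_contra hcon
    rw [mem_union, not_or] at hcon
    have h1 : SF g x ≤ t / 2 := not_lt.1 hcon.1
    have h2 : h x ≤ t / 2 := not_lt.1 hcon.2
    have h3 : SF f x ≤ t := (hkey x).trans ((add_le_add h1 h2).trans (ENNReal.add_halves t).le)
    exact absurd hx' (not_lt.2 h3)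
  calc t * volume {x | t < SF f x}
      ≤ t * (volume {x | t / 2 < SF g x} + volume {x | t / 2 < h x}) := by
        gcongr
        exact (measure_mono hsubset).trans (measure_union_le _ _)
    _ = t * volume {x | t / 2 < SF g x} + t * volume {x | t / 2 < h x} := mul_add _ _ _
    _ ≤ 24 * C * A + 866 * A := add_le_add hgood hbad
    _ = (24 * C + 866) * A := by ring

end Pool.Agent.U682.GL
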