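import Pool.Agent.U481.GL.Stm
import Pool.Agent.U111.HW.Stop

set_option autoImplicit false

open MeasureTheory Filter Topology Set
open scoped ENNReal NNReal Real

namespace Pool.Agent.U682.GL

open Pool.Agent.U481.HW Pool.Agent.U111.HW.Stop

/-- the Calderon-Zygmund stopping intervals -/
theorem cz (f : ℝ → ℂ) (hf : Integrable f) (t : ℝ≥0∞) (ht0 : t ≠ 0) (htt : t ≠ ⊤) :
    ∃ F : Set (ℤ × ℤ), F.PairwiseDisjoint DD ∧
      (∀ r ∈ F, t * volume (DD r) ≤ ∫⁻ y in DD r, ‖f y‖ₑ) ∧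
      (∀ r ∈ F, (∫⁻ y in DD r, ‖f y‖ₑ) ≤ 2 * t * volume (DD r)) ∧
      ∀ᵐ x, (∀ r ∈ F, x ∉ DD r) → ‖f x‖ₑ ≤ t := by
  set Bad : ℤ × ℤ → Prop := fun r => t * volume (DD r) < ∫⁻ y in DD r, ‖f y‖ₑ with hBad
  set F : Set (ℤ × ℤ) := {r | Bad r ∧ ∀ s, Bad s → r.1 < s.1 → ¬ DD r ⊆ DD s} with hF
  have hA : (∫⁻ y, ‖f y‖ₑ) < ⊤ := hf.2
  obtain ⟨N, hN⟩ : ∃ N : ℤ, ∀ r, Bad r → r.1 ≤ N := by
    have h1 : (∫⁻ y, ‖f y‖ₑ) / t < ⊤ := ENNReal.div_lt_top hA.ne ht0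
    obtain ⟨n, hn⟩ := ENNReal.exists_nat_gt h1.ne
    refine ⟨n, fun r hr => ?_⟩
    by_contra hcon
    have hnr : (n : ℤ) ≤ r.1 := (not_le.1 hcon).le
    have h2 : (∫⁻ y, ‖f y‖ₑ) ≤ t * n := by
      have := (ENNReal.div_le_iff_le_mul (Or.inl ht0) (Or.inl htt)).1 hn.le
      rwa [mul_comm] at this
    have h3 : (n : ℝ≥0∞) ≤ volume (DD r) := by
      rw [vol_DD]
      have h4 : ((n : ℕ) : ℝ) ≤ (2 : ℝ) ^ r.1 := by
        have h5 : ((n : ℕ) : ℝ) ≤ (2 : ℝ) ^ (n : ℤ) := by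
          rw [zpow_natCast]
          exact_mod_cast Nat.lt_two_pow_self.le
        exact h5.trans (zpow_le_zpow_right₀ (by norm_num) hnr)
      calc (n : ℝ≥0∞) = ENNReal.ofReal (n : ℝ) := (ENNReal.ofReal_natCast n).symm
        _ ≤ _ := ENNReal.ofReal_le_ofReal h4
    have h6 : t * volume (DD r) < t * volume (DD r) := by
      calc t * volume (DD r) < ∫⁻ y in DD r, ‖f y‖ₑ := hr
        _ ≤ ∫⁻ y, ‖f y‖ₑ := setLIntegral_le_lintegral _ _
        _ ≤ t * n := h2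
        _ ≤ t * volume (DD r) := by gcongr
    exact absurd h6 (lt_irrefl _)
  have hdisj : F.PairwiseDisjoint DD := by
    intro r hr s hs hrs
    rw [Function.onFun, Set.disjoint_left]
    intro x hxr hxs
    rcases lt_trichotomy r.1 s.1 with h | h | h
    · exact hr.2 s hs.1 h (nested (n := r.1) (j := r.2) (m := s.1) (i := s.2) h.le hxr hxs)
    · apply hrs
      have h1 : ⌊x / 2 ^ r.1⌋ = r.2 := mem_DD.1 hxr
      have h2 : ⌊x / 2 ^ s.1⌋ = s.2 := mem_DD.1 hxs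
      rw [h] at h1
      exact Prod.ext h (h1.symm.trans h2)
    · exact hs.2 r hr.1 h (nested (n := s.1) (j := s.2) (m := r.1) (i := r.2) h.le hxs hxr)
  refine ⟨F, hdisj, fun r hr => hr.1.le, ?_, ?_⟩
  · rintro ⟨n, j⟩ hr
    have hx : (j : ℝ) * 2 ^ n ∈ DD (n, j) := nonempty_DD (n, j)
    set x : ℝ := (j : ℝ) * 2 ^ n
    set i : ℤ := ⌊x / 2 ^ (n + 1)⌋ with hi
    have hxi : x ∈ DD (n + 1, i) := mem_DD.2 hi.symm
    have hsub1 : DD (n, j) ⊆ DD (n + 1, i) := nested (by omega) hx hxi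
    have hnb : ¬ Bad (n + 1, i) := fun hb => hr.2 _ hb (by simp) hsub1
    have h3 : (∫⁻ y in DD (n + 1, i), ‖f y‖ₑ) ≤ t * volume (DD (n + 1, i)) := not_lt.1 hnb
    have h4 : volume (DD (n + 1, i)) = 2 * volume (DD (n, j)) := by
      rw [vol_DD, vol_DD]
      simp only
      rw [zpow_add₀ (by norm_num : (2 : ℝ) ≠ 0), zpow_one, mul_comm,
        ENNReal.ofReal_mul (by norm_num)]
      norm_num
    calc (∫⁻ y in DD (n, j), ‖f y‖ₑ) ≤ ∫⁻ y in DD (n + 1, i), ‖f y‖ₑ :=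
          lintegral_mono_set hsub1
      _ ≤ t * volume (DD (n + 1, i)) := h3
      _ = 2 * t * volume (DD (n, j)) := by rw [h4]; ring
  · have hloc : LocallyIntegrable (fun x => ‖f x‖) volume := hf.norm.locallyIntegrable
    filter_upwards [IsUnifLocDoublingMeasure.ae_tendsto_average (μ := volume) hloc 1] with x hx hxF
    set J : ℕ → ℤ := fun k => ⌊x / 2 ^ (-(k : ℤ))⌋ with hJ
    have hxJ : ∀ k : ℕ, x ∈ DD (-(k : ℤ), J k) := fun k => mem_DD.2 rfl
    set w : ℕ → ℝ := fun k => ((J k : ℝ) + 1 / 2) * 2 ^ (-(k : ℤ)) with hw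
    set δ : ℕ → ℝ := fun k => (1 / 2 : ℝ) * 2 ^ (-(k : ℤ)) with hδ
    have hδlim : Tendsto δ atTop (𝓝[>] 0) := by
      rw [tendsto_nhdsWithin_iff]
      constructor
      · have h1 : Tendsto (fun k : ℕ => (1 / 2 : ℝ) * (1 / 2) ^ k) atTop (𝓝 (1 / 2 * 0)) :=
          (tendsto_pow_atTop_nhds_zero_of_lt_one (by norm_num) (by norm_num)).const_mul _
        rw [mul_zero] at h1
        refine h1.congr (fun k => ?_)
        simp only [hδ, zpow_neg, zpow_natCast, one_div, inv_pow]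
      · exact Eventually.of_forall (fun k => by
          simp only [hδ, mem_Ioi]; positivity)
    have hball : ∀ k : ℕ, Metric.closedBall (w k) (δ k) =
        Icc ((J k : ℝ) * 2 ^ (-(k : ℤ))) (((J k : ℝ) + 1) * 2 ^ (-(k : ℤ))) := by
      intro k
      rw [Real.closedBall_eq_Icc]
      congr 1 <;> simp only [hw, hδ] <;> ring
    have hmem : ∀ᶠ k : ℕ in atTop, x ∈ Metric.closedBall (w k) (1 * δ k) := by
      refine Eventually.of_forall (fun k => ?_)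
      rw [one_mul, hball]
      exact Ico_subset_Icc_self (hxJ k)
    have hlim := hx w δ hδlim hmem
    -- no interval which contains `x` is bad
    have hnb : ∀ s : ℤ × ℤ, x ∈ DD s → ¬ Bad s := by
      rintro ⟨n, j⟩ hxs hbad
      have hj : ⌊x / 2 ^ n⌋ = j := mem_DD.1 hxs
      obtain ⟨m, hm1, hm2⟩ := Int.exists_greatest_of_bdd
        (P := fun m : ℤ => Bad (m, ⌊x / 2 ^ m⌋))
        ⟨N, fun z hz => hN (z, ⌊x / 2 ^ z⌋) hz⟩ ⟨n, by rw [hj]; exact hbad⟩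
      refine hxF (m, ⌊x / 2 ^ m⌋) ⟨hm1, ?_⟩ (mem_DD.2 rfl)
      rintro ⟨s1, s2⟩ hs hlt hsub
      have hxs : x ∈ DD (s1, s2) := hsub (mem_DD.2 rfl)
      have h8 : ⌊x / 2 ^ s1⌋ = s2 := mem_DD.1 hxs
      have h9 : s1 ≤ m := hm2 s1 (by rw [h8]; exact hs)
      simp only at hlt
      omega
    have hle : ‖f x‖ ≤ t.toReal := by
      refine le_of_tendsto hlim (Eventually.of_forall fun k => ?_)
      have h1 : (∫⁻ y in DD (-(k : ℤ), J k), ‖f y‖ₑ) ≤ t * volume (DD (-(k : ℤ), J k)) :=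
        not_lt.1 (hnb _ (hxJ k))
      have h2 : (∫ y in Metric.closedBall (w k) (δ k), ‖f y‖) =
          ∫ y in DD (-(k : ℤ), J k), ‖f y‖ := by
        rw [hball]
        exact setIntegral_congr_set (Ico_ae_eq_Icc.symm)
      have h3 : (∫ y in DD (-(k : ℤ), J k), ‖f y‖) ≤ t.toReal * 2 ^ (-(k : ℤ)) := by
        rw [integral_norm_eq_lintegral_enorm hf.1.restrict]
        rw [vol_DD] at h1
        have h5 := ENNReal.toReal_mono (ENNReal.mul_ne_top htt ENNReal.ofReal_ne_top) h1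
        rw [ENNReal.toReal_mul, ENNReal.toReal_ofReal (by positivity)] at h5
        exact h5
      rw [setAverage_eq, h2, smul_eq_mul]
      have h4 : volume.real (Metric.closedBall (w k) (δ k)) = 2 ^ (-(k : ℤ)) := by
        rw [hball, Measure.real, Real.volume_Icc, ENNReal.toReal_ofReal]
        · ring
        · have : (0 : ℝ) < 2 ^ (-(k : ℤ)) := by positivity
          nlinarith
      rw [h4]
      have h6 : (0 : ℝ) < 2 ^ (-(k : ℤ)) := by positivity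
      rw [inv_mul_le_iff₀ h6]
      linarith [mul_comm (t.toReal) ((2 : ℝ) ^ (-(k : ℤ)))]
    calc ‖f x‖ₑ = ENNReal.ofReal ‖f x‖ := (ofReal_norm_eq_enorm _).symm
      _ ≤ ENNReal.ofReal t.toReal := ENNReal.ofReal_le_ofReal hle
      _ = t := ENNReal.ofReal_toReal htt

end Pool.Agent.U682.GL
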